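import Pool.Agent.H38.FT.RigidMain
import Pool.Agent.H59.FT.Reduction
import Pool.Agent.H70.FT.Groups
import Pool.Agent.H21.FT.ExFinal

/-!
# The fully transitive polyhedra in Euclidean 3-space
-/

namespace Pool.Agent.Results.MP_6dcd1c_co.FullClassification

open Pool.Agent.H38.FT (Cfg E3 FullyTransitive Similar Item rigidList familyList)
open Pool.Agent.H21.FT

theorem result :
    (∀ P : Cfg E3, IsPoly P → P.V.Finite →
      (FullyTransitive P ↔ ∃! i : Item, i.Valid ∧ Similar P (finItem i))) ∧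
    (∀ i : Item, i.Valid → IsPoly (finItem i) ∧ (finItem i).V.Finite ∧
      FullyTransitive (finItem i)) ∧
    rigidList.length = 42 ∧ rigidList.Nodup ∧ familyList.length = 10 ∧ familyList.Nodup ∧
    (∀ P : Cfg E3, IsPoly P → P.V.Infinite →
      (FullyTransitive P ↔ ∃ i : Entry, i.Valid ∧ Similar P i.cfg)) ∧
    (∀ i : Entry, i.Valid → IsPoly i.cfg ∧ i.cfg.V.Infinite ∧ FullyTransitive i.cfg) ∧
    (∀ i j : Entry, i.Valid → j.Valid → (Similar i.cfg j.cfg ↔ i.Equivalent j)) ∧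
    (∀ i : Entry, i.Valid → ∀ g : E3 ≃ᵢ E3, i.cfg.map g = i.cfg ↔
      ∃ k ∈ grp i.A i.B i.s, ∀ x, g (i.point x) = i.point (k x)) ∧
    (∀ i : Entry, i.Valid → ∀ k ∈ grp i.A i.B i.s, ∃ g : E3 ≃ᵢ E3,
      ∀ x, g (i.point x) = i.point (k x)) ∧
    (∀ i : Entry, i.Valid → (Regular i.cfg ↔ i.cls = .reg) ∧ (Chiral i.cfg ↔ i.cls = .c2) ∧
      flagOrbits i.cfg = i.cls.orbits) ∧
    catalogue.length = 93 ∧ (catalogue.flatMap Block.fams).length = 155 ∧
    (∀ b ∈ catalogue, ∀ f ∈ b.fams, ∃ i : Entry, i.Valid ∧ i.kind = b.kind ∧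
      (b.only f).Gives i.A i.B i.s) ∧
    (∃ i : Entry, i.Valid ∧ i.kind = .tet ∧ Tube i.A i.B i.s) ∧
    (∀ c : Cls, ∃ i : Entry, i.Valid ∧ i.cls = c) := by
  have h := Pool.Agent.H38.FT.classification2 Pool.Agent.H38.FT.rigidDistinct
    Pool.Agent.H70.FT.finite_groups Pool.Agent.H59.FT.reduction
  refine ⟨fun P hP hf => ?_, fun i hi => ?_, by decide +kernel, by decide +kernel,
    by decide +kernel, by decide +kernel, fun P hP hf => entry_classification hP hf,
    fun i hi => hi.poly, fun i j hi hj => hi.similar hj, fun i hi g => hi.sym g,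
    fun i hi k hk => hi.lift hk,
    fun i hi => hi.types, by decide +kernel, by decide +kernel,
    fun b hb f hf => family_occurs hb hf, tube_occurs, class_occurs⟩
  · obtain ⟨h1, -, h3⟩ := (isPoly_iff P).1 hP
    exact h.1 P ⟨h1, hf, h3⟩
  · obtain ⟨h1, h2⟩ := h.2 i hi
    have : Finite (finItem i).V := h1.fin
    exact ⟨(isPoly_iff _).2 ⟨h1.poly, Finite.instDiscreteTopology, h1.span⟩, h1.fin, h2⟩

end Pool.Agent.Results.MP_6dcd1c_co.FullClassification
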